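import Pool.Agent.helper24.ISL.Spec2

set_option autoImplicit false

/-! # Row isl:EX: transvections of a proper subgroup are strongly opposite -/

namespace Pool.Agent.ISL

open Matrix Filter Topology

theorem EX_det {n : ℕ} (e φ : Fin n → ℚ) : (1 + rk e φ).det = 1 + φ ⬝ᵥ e := by
  have h : vecMulVec e φ = replicateCol Unit e * replicateRow Unit φ := by
    ext i j
    simp [vecMulVec_apply, Matrix.mul_apply]
  unfold rk
  rw [h, det_one_add_replicateCol_mul_replicateRow]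

theorem EX_dot {n : ℕ} {K : Subgroup (SL n ℚ)} {e φ : Fin n → ℚ} (h : InK K (1 + rk e φ)) :
    φ ⬝ᵥ e = 0 := by
  obtain ⟨k, _, hk⟩ := h
  have h1 := k.2
  have h2 : (k : Mat n ℚ).det = 1 := h1
  rw [hk, EX_det] at h2
  linarith

theorem EX_mul {n : ℕ} (e φ : Fin n → ℚ) (h0 : φ ⬝ᵥ e = 0) (x y : ℚ) :
    (1 + rk (x • e) φ) * (1 + rk (y • e) φ) = 1 + rk ((x + y) • e) φ := by
  unfold rk
  rw [Matrix.add_mul, Matrix.mul_add, Matrix.mul_add, vecMulVec_mul_vecMulVec, dotProduct_smul, h0,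
    add_smul, add_vecMulVec]
  simp
  abel

theorem EX_int {n : ℕ} {K : Subgroup (SL n ℚ)} {e φ : Fin n → ℚ} (h : InK K (1 + rk e φ)) (k : ℤ) :
    InK K (1 + rk ((k : ℚ) • e) φ) := by
  have h0 := EX_dot h
  have hz : InK K (1 + rk ((0 : ℚ) • e) φ) := by
    refine ⟨1, K.one_mem, ?_⟩
    rw [zero_smul]
    unfold rk
    simp
  have hadd : ∀ x y : ℚ, InK K (1 + rk (x • e) φ) → InK K (1 + rk (y • e) φ) →
      InK K (1 + rk ((x + y) • e) φ) := by
    rintro x y ⟨g, hg, hg'⟩ ⟨k, hk, hk'⟩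
    refine ⟨g * k, K.mul_mem hg hk, ?_⟩
    rw [Matrix.SpecialLinearGroup.coe_mul, hg', hk', EX_mul e φ h0]
  have hneg : ∀ x : ℚ, InK K (1 + rk (x • e) φ) → InK K (1 + rk ((-x) • e) φ) := by
    rintro x ⟨g, hg, hg'⟩
    refine ⟨g⁻¹, K.inv_mem hg, ?_⟩
    have e1 : (g : Mat n ℚ) * (1 + rk ((-x) • e) φ) = 1 := by
      rw [hg', EX_mul e φ h0, add_neg_cancel, zero_smul]
      unfold rk
      simp
    have e2 : ((g⁻¹ : SL n ℚ) : Mat n ℚ) * (g : Mat n ℚ) = 1 := by
      rw [← Matrix.SpecialLinearGroup.coe_mul, inv_mul_cancel, Matrix.SpecialLinearGroup.coe_one]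
    calc ((g⁻¹ : SL n ℚ) : Mat n ℚ) = (g⁻¹ : SL n ℚ) * ((g : Mat n ℚ) * (1 + rk ((-x) • e) φ)) := by
          rw [e1, Matrix.mul_one]
      _ = 1 + rk ((-x) • e) φ := by rw [← Matrix.mul_assoc, e2, Matrix.one_mul]
  have hone : InK K (1 + rk ((1 : ℚ) • e) φ) := by rw [one_smul]; exact h
  have hnat : ∀ m : ℕ, InK K (1 + rk ((m : ℚ) • e) φ) := by
    intro m
    induction m with
    | zero => rw [Nat.cast_zero]; exact hz
    | succ m ih => rw [Nat.cast_succ]; exact hadd _ _ ih hone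
  rcases Int.eq_nat_or_neg k with ⟨m, rfl | rfl⟩
  · exact_mod_cast hnat m
  · have := hneg _ (hnat m)
    rw [Int.cast_neg, Int.cast_natCast]
    exact this

theorem EX_core (h1 : MAIN_stmt) (h2 : ZD_stmt) (n : ℕ) (hn : 3 ≤ n) (H : Subgroup (SL n ℚ))
    (hM : MeetsAll H) (hT : H ≠ ⊤) (e φ e' φ' : Fin n → ℤ)
    (hA : InK H (1 + rk (H48SL.castV e) (H48SL.castV φ)))
    (hB : InK H (1 + rk (H48SL.castV e') (H48SL.castV φ')))
    (hz : vecMulVec e φ ≠ 0) (hz' : vecMulVec e' φ' ≠ 0)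
    (hs : |(φ ⬝ᵥ e') * (φ' ⬝ᵥ e)| ≤ 4)
    (hp : ∀ s t : ℤ, s ≠ 0 → t ≠ 0 → s • vecMulVec e φ ≠ t • vecMulVec e' φ') : False := by
  have h0 : φ ⬝ᵥ e = 0 := by
    have := EX_dot hA
    rw [H48SL.castV_dot] at this
    exact_mod_cast this
  have h0' : φ' ⬝ᵥ e' = 0 := by
    have := EX_dot hB
    rw [H48SL.castV_dot] at this
    exact_mod_cast this
  have hmem : ∀ u v : Fin n → ℤ, v ⬝ᵥ u = 0 → InK H (1 + rk (H48SL.castV u) (H48SL.castV v)) →
      H48SL.tv u v ∈ HZ H := by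
    intro u v huv h
    obtain ⟨k, hk, hk'⟩ := h
    unfold HZ
    rw [Subgroup.mem_comap]
    have : Matrix.SpecialLinearGroup.map (Int.castRingHom ℚ) (H48SL.tv u v) = k := by
      apply Subtype.ext
      change _ = (k : Mat n ℚ)
      rw [hk']
      ext i j
      rw [Matrix.SpecialLinearGroup.map_apply_coe, RingHom.mapMatrix_apply, Matrix.map_apply,
        H48SL.tv_coe huv]
      simp [rk, H48SL.castV, vecMulVec_apply, Matrix.one_apply]
    rw [this]
    exact hk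
  have hne : ∀ u v : Fin n → ℤ, v ⬝ᵥ u = 0 → vecMulVec u v ≠ 0 → H48SL.tv u v ≠ 1 := by
    intro u v huv h h'
    apply h
    have := congrArg (fun x : SL n ℤ => (x : Mat n ℤ)) h'
    simp only [Matrix.SpecialLinearGroup.coe_one] at this
    rw [H48SL.tv_coe huv] at this
    exact add_eq_left.1 this
  obtain ⟨m1, _, m3⟩ := h1 n (by omega) H hM
  have hZD := h2 n H m1
  have key := H48SL.final_pairs (by rw [Fintype.card_fin]; exact hn) (HZ H) e φ e' φ'
    (H48SL.tv e φ) (H48SL.tv e' φ') (hmem e φ h0 hA) (hmem e' φ' h0' hB) (hne e φ h0 hz)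
    (hne e' φ' h0' hz') (H48SL.tv_coe h0) (H48SL.tv_coe h0') ?_ ?_
  · have := (key.1 hZD).index_ne_zero
    exact this (m3 hT)
  · have htr : ((H48SL.tv e φ * H48SL.tv e' φ' : SL n ℤ) : Mat n ℤ).trace - Fintype.card (Fin n)
        = (φ ⬝ᵥ e') * (φ' ⬝ᵥ e) := by
      rw [Matrix.SpecialLinearGroup.coe_mul, H48SL.tv_coe h0, H48SL.tv_coe h0', Matrix.add_mul,
        Matrix.mul_add, Matrix.mul_add, vecMulVec_mul_vecMulVec, Matrix.one_mul, Matrix.one_mul,
        Matrix.mul_one, Matrix.trace_add, Matrix.trace_add, Matrix.trace_add, Matrix.trace_one,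
        Matrix.trace_vecMulVec, Matrix.trace_vecMulVec, Matrix.trace_vecMulVec, dotProduct_smul,
        dotProduct_comm e φ, h0, dotProduct_comm e' φ', h0', dotProduct_comm e φ']
      simp
    rw [htr]
    exact hs
  · intro a b ha hb hab
    rw [← H48SL.tv_zsmul_right h0, ← H48SL.tv_zsmul_right h0'] at hab
    have := congrArg (fun x : SL n ℤ => (x : Mat n ℤ)) hab
    beta_reduce at this
    rw [H48SL.tv_coe (by rw [smul_dotProduct, h0, smul_zero]),
      H48SL.tv_coe (by rw [smul_dotProduct, h0', smul_zero]), vecMulVec_smul, vecMulVec_smul] at this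
    exact hp a b ha hb (add_left_cancel this)

theorem EX_conj {n : ℕ} (X Y : Mat n ℚ) (hXY : X * Y = 1) (u v : Fin n → ℚ) :
    X * (1 + rk u v) * Y = 1 + rk (X *ᵥ u) (v ᵥ* Y) := by
  unfold rk
  rw [Matrix.mul_add, Matrix.mul_one, Matrix.add_mul, hXY, mul_vecMulVec, vecMulVec_mul]

theorem EX_smul {n : ℕ} (x y : ℚ) (e φ : Fin n → ℚ) : rk (x • e) (y • φ) = rk ((x * y) • e) φ := by
  unfold rk
  rw [vecMulVec_smul, smul_vecMulVec, smul_vecMulVec, smul_smul, mul_comm]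

theorem EX (h1 : MAIN_stmt) (h2 : ZD_stmt) (h3 : CJ_stmt) (h4 : BS_stmt) : EX_stmt := by
  intro n hn H hM hT e φ e' φ' hA hB hz hc
  by_contra hlt
  push Not at hlt
  have h0 := EX_dot hA
  have h0' := EX_dot hB
  set q : ℚ := (φ ⬝ᵥ e') * (φ' ⬝ᵥ e) with hq
  have hz' : rk e' φ' ≠ 0 := by
    intro h
    apply hc 0
    rw [h, zero_smul]
  by_cases hq0 : q = 0
  · -- all four vectors integral
    obtain ⟨N1, w1, hN1, hw1⟩ := H48SL.clear_denom e
    obtain ⟨N2, w2, hN2, hw2⟩ := H48SL.clear_denom φ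
    obtain ⟨N3, w3, hN3, hw3⟩ := H48SL.clear_denom e'
    obtain ⟨N4, w4, hN4, hw4⟩ := H48SL.clear_denom φ'
    have g1 : rk (H48SL.castV w1) (H48SL.castV w2) = (((N1 * N2 : ℤ)) : ℚ) • rk e φ := by
      rw [hw1, hw2, EX_smul]
      unfold rk
      rw [smul_vecMulVec]
      push_cast
      rfl
    have g2 : rk (H48SL.castV w3) (H48SL.castV w4) = (((N3 * N4 : ℤ)) : ℚ) • rk e' φ' := by
      rw [hw3, hw4, EX_smul]
      unfold rk
      rw [smul_vecMulVec]
      push_cast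
      rfl
    have hcast : ∀ u v : Fin n → ℤ, ∀ i j, rk (H48SL.castV u) (H48SL.castV v) i j =
        ((vecMulVec u v i j : ℤ) : ℚ) := by
      intro u v i j
      simp [rk, H48SL.castV, vecMulVec_apply]
    refine EX_core h1 h2 n hn H hM hT w1 w2 w3 w4 ?_ ?_ ?_ ?_ ?_ ?_
    · rw [hw1, hw2, EX_smul]
      have := EX_int hA (N1 * N2)
      rwa [Int.cast_mul] at this
    · rw [hw3, hw4, EX_smul]
      have := EX_int hB (N3 * N4)
      rwa [Int.cast_mul] at this
    · intro h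
      have e1 : rk (H48SL.castV w1) (H48SL.castV w2) = 0 := by
        ext i j
        rw [hcast, h]
        simp
      rw [g1] at e1
      rcases smul_eq_zero.1 e1 with h5 | h5
      · have : N1 * N2 = 0 := by exact_mod_cast h5
        exact mul_ne_zero hN1 hN2 this
      · exact hz h5
    · intro h
      have e1 : rk (H48SL.castV w3) (H48SL.castV w4) = 0 := by
        ext i j
        rw [hcast, h]
        simp
      rw [g2] at e1
      rcases smul_eq_zero.1 e1 with h5 | h5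
      · have : N3 * N4 = 0 := by exact_mod_cast h5
        exact mul_ne_zero hN3 hN4 this
      · exact hz' h5
    · have e1 : (((w2 ⬝ᵥ w3) * (w4 ⬝ᵥ w1) : ℤ) : ℚ) = 0 := by
        rw [Int.cast_mul, ← H48SL.castV_dot, ← H48SL.castV_dot, hw1, hw2, hw3, hw4, smul_dotProduct,
          dotProduct_smul, smul_dotProduct, dotProduct_smul]
        simp only [smul_eq_mul]
        calc (N2 : ℚ) * ((N3 : ℚ) * φ ⬝ᵥ e') * ((N4 : ℚ) * ((N1 : ℚ) * φ' ⬝ᵥ e)) =
            N2 * N3 * N4 * N1 * ((φ ⬝ᵥ e') * (φ' ⬝ᵥ e)) := by ring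
          _ = 0 := by rw [← hq, hq0, mul_zero]
      have e2 : (w2 ⬝ᵥ w3) * (w4 ⬝ᵥ w1) = 0 := by exact_mod_cast e1
      rw [e2]
      norm_num
    · intro s t hs ht hst
      have e1 : (s : ℚ) • rk (H48SL.castV w1) (H48SL.castV w2) =
          (t : ℚ) • rk (H48SL.castV w3) (H48SL.castV w4) := by
        ext i j
        rw [Matrix.smul_apply, Matrix.smul_apply, hcast, hcast, smul_eq_mul, smul_eq_mul]
        have := congrFun (congrFun hst i) j
        rw [Matrix.smul_apply, Matrix.smul_apply, smul_eq_mul, smul_eq_mul] at this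
        exact_mod_cast this
      rw [g1, g2, smul_smul, smul_smul] at e1
      have ht' : (t : ℚ) * ((N3 * N4 : ℤ) : ℚ) ≠ 0 := by
        apply mul_ne_zero
        · exact_mod_cast ht
        · exact_mod_cast mul_ne_zero hN3 hN4
      apply hc (((t : ℚ) * ((N3 * N4 : ℤ) : ℚ))⁻¹ * ((s : ℚ) * ((N1 * N2 : ℤ) : ℚ)))
      rw [mul_smul, e1, smul_smul, inv_mul_cancel₀ ht', one_smul]
  · -- the case of opposite transvections
    have hq1 : φ ⬝ᵥ e' ≠ 0 := fun h => hq0 (by rw [hq, h, zero_mul])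
    have hq2 : φ' ⬝ᵥ e ≠ 0 := fun h => hq0 (by rw [hq, h, mul_zero])
    obtain ⟨X, Y, hXY, i₀, i₁, hi, x1, x2, x3, x4⟩ := h4 n (by omega) e φ e' φ' h0 h0' hq1 hq2
    obtain ⟨H', hM', hT', hmem⟩ := h3 n H X Y hXY hM
    have hT2 : H' ≠ ⊤ := fun h => hT (hT' h)
    have hcs : ∀ (i : Fin n) (a : ℤ), H48SL.castV (Pi.single i a : Fin n → ℤ) = (a : ℚ) • Pi.single i 1 := by
      intro i a
      funext j
      unfold H48SL.castV
      by_cases hj : j = i
      · subst hj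
        simp
      · simp [hj]
    have hinK : ∀ u v : Fin n → ℤ, v ⬝ᵥ u = 0 →
        InK H (1 + rk (X *ᵥ H48SL.castV u) (H48SL.castV v ᵥ* Y)) →
        InK H' (1 + rk (H48SL.castV u) (H48SL.castV v)) := by
      intro u v huv h
      obtain ⟨k, hk, hk'⟩ := h
      have e1 : ((Matrix.SpecialLinearGroup.map (Int.castRingHom ℚ) (H48SL.tv u v) : SL n ℚ) : Mat n ℚ) =
          1 + rk (H48SL.castV u) (H48SL.castV v) := by
        ext i j
        rw [Matrix.SpecialLinearGroup.map_apply_coe, RingHom.mapMatrix_apply, Matrix.map_apply,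
          H48SL.tv_coe huv]
        simp [rk, H48SL.castV, vecMulVec_apply, Matrix.one_apply]
      refine ⟨Matrix.SpecialLinearGroup.map (Int.castRingHom ℚ) (H48SL.tv u v), ?_, e1⟩
      apply hmem _ k hk
      rw [e1, hk', EX_conj X Y hXY]
    have y1 : (Pi.single i₁ 1 : Fin n → ℚ) ᵥ* Y = φ := by
      rw [← x3, vecMul_vecMul, hXY, vecMul_one]
    have y2 : (Pi.single i₀ 1 : Fin n → ℚ) ᵥ* Y = (φ' ⬝ᵥ e)⁻¹ • φ' := by
      have : (φ' ᵥ* X) ᵥ* Y = φ' := by rw [vecMul_vecMul, hXY, vecMul_one]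
      rw [x4, smul_vecMul] at this
      exact (inv_smul_eq_iff₀ hq2).2 this.symm |>.symm
    have hd1 : (Pi.single i₁ (1 : ℤ) : Fin n → ℤ) ⬝ᵥ (Pi.single i₀ (1 : ℤ)) = 0 := by
      rw [single_dotProduct, one_mul, Pi.single_eq_of_ne hi.symm]
    have hd2 : (Pi.single i₀ (1 : ℤ) : Fin n → ℤ) ⬝ᵥ (Pi.single i₁ q.num) = 0 := by
      rw [single_dotProduct, one_mul, Pi.single_eq_of_ne hi]
    have hnum : q.num ≠ 0 := Rat.num_ne_zero.2 hq0
    refine EX_core h1 h2 n hn H' hM' hT2 (Pi.single i₀ 1) (Pi.single i₁ 1) (Pi.single i₁ q.num)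
      (Pi.single i₀ 1) ?_ ?_ ?_ ?_ ?_ ?_
    · apply hinK _ _ hd1
      rw [hcs, hcs, Int.cast_one, one_smul, one_smul, x1, y1]
      exact hA
    · apply hinK _ _ hd2
      rw [hcs, hcs, Int.cast_one, one_smul, mulVec_smul, x2, y2, smul_smul, EX_smul]
      have e1 : (q.num : ℚ) * (φ ⬝ᵥ e')⁻¹ * (φ' ⬝ᵥ e)⁻¹ = ((q.den : ℤ) : ℚ) := by
        have e2 : (q.num : ℚ) = q * q.den := (Rat.mul_den_eq_num q).symm
        rw [e2, hq]
        field_simp
        push_cast
        rfl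
      rw [e1]
      exact EX_int hB _
    · intro h
      have := congrFun (congrFun h i₀) i₁
      simp [vecMulVec_apply] at this
    · intro h
      have := congrFun (congrFun h i₁) i₀
      rw [vecMulVec_apply, Pi.single_eq_same, Pi.single_eq_same, mul_one] at this
      exact hnum this
    · rw [single_dotProduct, one_mul, Pi.single_eq_same, single_dotProduct, one_mul,
        Pi.single_eq_same, mul_one]
      omega
    · intro s t hs ht hst
      have := congrFun (congrFun hst i₀) i₁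
      rw [Matrix.smul_apply, Matrix.smul_apply, vecMulVec_apply, vecMulVec_apply, Pi.single_eq_same,
        Pi.single_eq_same, Pi.single_eq_of_ne hi] at this
      simp at this
      exact hs this

end Pool.Agent.ISL
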